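import Mathlib

/-!
# Strong odd colourings of hypergraphs of maximum degree four need unboundedly many colours

Question Q1 of the problem has a negative answer, already for maximum degree `4`: for every `t`
there is a hypergraph in which every vertex lies in at most four hyperedges and which has no strong
odd vertex colouring with `t` colours.

The hypergraph.  Let `n = 8 ^ t + 1`.  The hyperedges are indexed by `(i, γ)`, `i < n`, `γ` in
`{0, 1, 2}`.  The vertices are the pairs `((i, α), (j, β))` with `i ≠ j`; such a vertex lies in the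
four hyperedges `(i, γ)`, `γ ≠ α`, and `(j, δ)`, `δ ≠ β`.

The proof.  Every vertex lies in exactly `0` or `2` of the hyperedges `(i, 0)`, `(i, 1)`, `(i, 2)`.
If the colour `c` is present in all three of them, then it is present an odd number of times in
each of them, and the sum of the three numbers is odd, but this sum is even.  So every colour misses
one of the three hyperedges.  For `i < n` let `P i` be the function which assigns to the colour `c`
the set of the `γ` such that `c` is present in `(i, γ)`.  There are at most `8 ^ t` such functions, so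
`P i = P j` for some `i ≠ j`.  The colour of the vertex `((i, 0), (j, 1))` is present in `(i, 1)`,
`(i, 2)`, and `(j, 0)`, hence in `(i, 0)`, a contradiction.
-/

set_option autoImplicit false

namespace Pool.Agent.Results.MP_368cee_co.Unbounded

open Finset

/-- The colouring `φ` of the vertices is a strong odd colouring of the hypergraph with the set of
hyperedges `E`: in every hyperedge, every colour occurs either `0` or an odd number of times. -/
def IsStrongOdd {V : Type} [DecidableEq V] (E : Finset (Finset V)) {t : ℕ} (φ : V → Fin t) :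
    Prop :=
  ∀ e ∈ E, ∀ i : Fin t, (e.filter fun v => φ v = i).card = 0 ∨ Odd (e.filter fun v => φ v = i).card

/-- The degree of a vertex: the number of the hyperedges containing it. -/
def degree {V : Type} [DecidableEq V] (E : Finset (Finset V)) (v : V) : ℕ :=
  (E.filter fun e => v ∈ e).card

/-- The vertices. -/
abbrev Vtx (n : ℕ) : Type := {x : (Fin n × Fin 3) × (Fin n × Fin 3) // x.1.1 ≠ x.2.1}

/-- The incidence of the vertex `x` and the hyperedge with the index `(i, γ)`. -/
def Inc {n : ℕ} (x : Vtx n) (p : Fin n × Fin 3) : Prop :=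
  (x.1.1.1 = p.1 ∧ x.1.1.2 ≠ p.2) ∨ (x.1.2.1 = p.1 ∧ x.1.2.2 ≠ p.2)

instance {n : ℕ} (x : Vtx n) (p : Fin n × Fin 3) : Decidable (Inc x p) := by
  unfold Inc; infer_instance

/-- The hyperedge with the index `(i, γ)`. -/
def hyp {n : ℕ} (p : Fin n × Fin 3) : Finset (Vtx n) := univ.filter fun x => Inc x p

/-- The set of all hyperedges. -/
def hyps (n : ℕ) : Finset (Finset (Vtx n)) := univ.image (hyp (n := n))

theorem card_ne (α : Fin 3) : (univ.filter fun γ : Fin 3 => α ≠ γ).card = 2 := by
  revert α; decide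

/-- Every vertex lies in `0` or `2` of the three hyperedges `(i, γ)`. -/
theorem two_or_zero {n : ℕ} (x : Vtx n) (i : Fin n) :
    Even (univ.filter fun γ : Fin 3 => Inc x (i, γ)).card := by
  obtain ⟨⟨⟨a, α⟩, ⟨b, β⟩⟩, hx⟩ := x
  have hab : a ≠ b := hx
  by_cases h1 : a = i
  · have h2 : b ≠ i := fun h => hab (h1.trans h.symm)
    have : (univ.filter fun γ : Fin 3 => Inc ⟨⟨⟨a, α⟩, ⟨b, β⟩⟩, hx⟩ (i, γ))
        = univ.filter fun γ : Fin 3 => α ≠ γ := by
      ext γ; simp [Inc, h1, h2]
    rw [this, card_ne]; exact even_two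
  · by_cases h2 : b = i
    · have : (univ.filter fun γ : Fin 3 => Inc ⟨⟨⟨a, α⟩, ⟨b, β⟩⟩, hx⟩ (i, γ))
          = univ.filter fun γ : Fin 3 => β ≠ γ := by
        ext γ; simp [Inc, h1, h2]
      rw [this, card_ne]; exact even_two
    · have : (univ.filter fun γ : Fin 3 => Inc ⟨⟨⟨a, α⟩, ⟨b, β⟩⟩, hx⟩ (i, γ)) = ∅ := by
        ext γ; simp [Inc, h1, h2]
      rw [this]; simp

/-- Every vertex has degree at most four. -/
theorem degree_le {n : ℕ} (x : Vtx n) : degree (hyps n) x ≤ 4 := by
  obtain ⟨⟨⟨a, α⟩, ⟨b, β⟩⟩, hx⟩ := x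
  unfold degree
  have hsub : ((hyps n).filter fun e => (⟨⟨⟨a, α⟩, ⟨b, β⟩⟩, hx⟩ : Vtx n) ∈ e) ⊆
      ((univ.filter fun γ : Fin 3 => α ≠ γ).image fun γ => hyp (a, γ)) ∪
      ((univ.filter fun γ : Fin 3 => β ≠ γ).image fun γ => hyp (b, γ)) := by
    intro e he
    rw [mem_filter] at he
    obtain ⟨he, hxe⟩ := he
    simp only [hyps, mem_image, mem_univ, true_and] at he
    obtain ⟨⟨i, γ⟩, rfl⟩ := he
    have hinc : Inc (⟨⟨⟨a, α⟩, ⟨b, β⟩⟩, hx⟩ : Vtx n) (i, γ) := (mem_filter.mp hxe).2
    simp only [mem_union, mem_image, mem_filter, mem_univ, true_and]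
    rcases hinc with ⟨h1, h2⟩ | ⟨h1, h2⟩
    · left; exact ⟨γ, h2, by rw [show a = i from h1]⟩
    · right; exact ⟨γ, h2, by rw [show b = i from h1]⟩
  refine (card_le_card hsub).trans ((card_union_le _ _).trans ?_)
  have h1 := card_image_le (s := univ.filter fun γ : Fin 3 => α ≠ γ)
    (f := fun γ => (hyp (a, γ) : Finset (Vtx n)))
  have h2 := card_image_le (s := univ.filter fun γ : Fin 3 => β ≠ γ)
    (f := fun γ => (hyp (b, γ) : Finset (Vtx n)))
  rw [card_ne] at h1 h2
  omega

/-- The numbers of the occurrences of a colour in the three hyperedges `(i, γ)` have an even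
sum. -/
theorem even_sum {n t : ℕ} (φ : Vtx n → Fin t) (i : Fin n) (c : Fin t) :
    Even (∑ γ : Fin 3, ((hyp (i, γ)).filter fun v => φ v = c).card) := by
  have h1 : ∑ γ : Fin 3, ((hyp (i, γ)).filter fun v => φ v = c).card
      = ∑ x ∈ univ.filter (fun x : Vtx n => φ x = c),
          (univ.filter fun γ : Fin 3 => Inc x (i, γ)).card := by
    have h2 : ∀ γ : Fin 3, ((hyp (i, γ)).filter fun v => φ v = c).card
        = ∑ x ∈ univ.filter (fun x : Vtx n => φ x = c), if Inc x (i, γ) then 1 else 0 := by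
      intro γ
      rw [hyp, filter_filter, card_filter, sum_filter]
      refine sum_congr rfl fun x _ => ?_
      by_cases ha : φ x = c <;> by_cases hb : Inc x (i, γ) <;> simp [ha, hb]
    simp only [h2]
    rw [sum_comm]
    refine sum_congr rfl fun x _ => ?_
    rw [card_filter]
  rw [h1]
  exact Finset.even_sum _ fun x _ => two_or_zero x i

/-- No strong odd colouring with `t` colours if `n > 8 ^ t`. -/
theorem not_strongOdd {n t : ℕ} (hn : 8 ^ t < n) (φ : Vtx n → Fin t) :
    ¬ IsStrongOdd (hyps n) φ := by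
  intro hφ
  classical
  -- the sets of the present indices
  let P : Fin n → (Fin t → Finset (Fin 3)) := fun i c =>
    univ.filter fun γ => ((hyp (i, γ)).filter fun v => φ v = c).card ≠ 0
  have hcard : Fintype.card (Fin t → Finset (Fin 3)) < Fintype.card (Fin n) := by
    simpa using hn
  obtain ⟨i, j, hij, hP⟩ := Fintype.exists_ne_map_eq_of_card_lt P hcard
  let x : Vtx n := ⟨((i, 0), (j, 1)), hij⟩
  have hpres : ∀ p : Fin n × Fin 3, Inc x p →
      ((hyp p).filter fun v => φ v = φ x).card ≠ 0 := by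
    intro p hp
    rw [Finset.card_ne_zero]
    exact ⟨x, by simp [hyp, hp]⟩
  have h1 : ((hyp (i, 1)).filter fun v => φ v = φ x).card ≠ 0 :=
    hpres _ (Or.inl ⟨rfl, by simp [x]⟩)
  have h2 : ((hyp (i, 2)).filter fun v => φ v = φ x).card ≠ 0 :=
    hpres _ (Or.inl ⟨rfl, by simp [x]⟩)
  have h0' : ((hyp (j, 0)).filter fun v => φ v = φ x).card ≠ 0 :=
    hpres _ (Or.inr ⟨rfl, by simp [x]⟩)
  have h0 : ((hyp (i, 0)).filter fun v => φ v = φ x).card ≠ 0 := by
    have h3 : (0 : Fin 3) ∈ P j (φ x) := by simpa [P] using h0'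
    rw [← hP] at h3
    simpa [P] using h3
  have hodd : ∀ γ : Fin 3, ((hyp (i, γ)).filter fun v => φ v = φ x).card ≠ 0 →
      Odd ((hyp (i, γ)).filter fun v => φ v = φ x).card := by
    intro γ hγ
    rcases hφ (hyp (i, γ)) (by simp [hyps]) (φ x) with h | h
    · exact absurd h hγ
    · exact h
  have hs := even_sum φ i (φ x)
  rw [Fin.sum_univ_three] at hs
  have a0 := hodd 0 h0
  have a1 := hodd 1 h1
  have a2 := hodd 2 h2
  have a3 := (a0.add_odd a1).add_odd a2
  exact (Nat.not_even_iff_odd.mpr a3) hs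

/-- **Main result.**  Q1 has a negative answer, and the maximum degree `4` is enough: for every
number `t` of colours there is a finite hypergraph of maximum degree at most `4` without strong odd
colouring with `t` colours. -/
theorem result :
    (¬ ∀ Δ : ℕ, 1 ≤ Δ → ∃ c : ℕ, ∀ (V : Type) [Fintype V] [DecidableEq V]
        (E : Finset (Finset V)), (∀ v, degree E v ≤ Δ) →
        ∃ t : ℕ, t ≤ c ∧ ∃ φ : V → Fin t, IsStrongOdd E φ) ∧
    ∀ c : ℕ, ∃ (V : Type) (_ : Fintype V) (_ : DecidableEq V) (E : Finset (Finset V)),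
      (∀ v, degree E v ≤ 4) ∧ ∀ t ≤ c, ∀ φ : V → Fin t, ¬ IsStrongOdd E φ := by
  have h2 : ∀ c : ℕ, ∃ (V : Type) (_ : Fintype V) (_ : DecidableEq V) (E : Finset (Finset V)),
      (∀ v, degree E v ≤ 4) ∧ ∀ t ≤ c, ∀ φ : V → Fin t, ¬ IsStrongOdd E φ := by
    intro c
    refine ⟨Vtx (8 ^ c + 1), inferInstance, inferInstance, hyps (8 ^ c + 1),
      fun v => degree_le v, fun t ht φ => not_strongOdd ?_ φ⟩
    have := Nat.pow_le_pow_right (show 0 < 8 by norm_num) ht
    omega
  refine ⟨fun h => ?_, h2⟩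
  obtain ⟨c, hc⟩ := h 4 (by norm_num)
  obtain ⟨V, hV, hV', E, hE, hno⟩ := h2 c
  obtain ⟨t, ht, φ, hφ⟩ := @hc V hV hV' E hE
  exact hno t ht φ hφ

end Pool.Agent.Results.MP_368cee_co.Unbounded
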